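import Pool.Agent.Lib.H75C.C4

/-! # Interpolation in `s = 1/(n-1)` between the two certificates

Certificate A is the plane inequality for `s = 0`, `y = 13/10` with the extra term
`- (1/10) (er - xx(E(1-E)))`, certificate B the one for `s = 1/5`, `y = 47/40`; `m = 11/9` in both.
For `s` in `[0, 1/5]` and `y = 13/10 - (5/8) s` the functional is
`(1-5s) A + 5 s B + (1/10) (1-5s)^2 (er - xx(E(1-E)))`, and `xx X (E(1-E)) ≤ er X E`. -/

namespace Pool.Agent.H72CA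

open Matrix Pool.Agent.H25A Pool.Agent.H54J Pool.Agent.H16T Pool.Agent.H75C
open scoped ComplexOrder

section
variable {ι κ : Type*} [Fintype ι] [DecidableEq ι] [Fintype κ] [DecidableEq κ] {n D : ℕ}

/-- `|E(1-E)|_XX^2 ≤ tr X^2 (1-E) E (1-E)`. -/
theorem xx_le_er {X E : Matrix ι ι ℂ} (hX : X.IsHermitian) (hE0 : E.PosSemidef)
    (hE1 : (1 - E).PosSemidef) : xx X (E * (1 - E)) ≤ er X E := by
  have hEh : Eᴴ = E := hE0.isHermitian.eq
  have hRh : (1 - E)ᴴ = 1 - E := hE1.isHermitian.eq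
  have hcomm : (1 - E) * E = E * (1 - E) := by
    rw [Matrix.mul_sub, Matrix.sub_mul, Matrix.mul_one, Matrix.one_mul]
  have hc : (E * (1 - E)).IsHermitian := by
    unfold Matrix.IsHermitian
    rw [Matrix.conjTranspose_mul, hEh, hRh, hcomm]
  have h1 : xx X (E * (1 - E)) = rtr (X * (E * (1 - E)) * X * (E * (1 - E))) := by
    unfold xx
    rw [hc.eq, rtr_mul_comm (E * (1 - E) * X * (E * (1 - E))) X]
    simp only [Matrix.mul_assoc]
  have h2 := rtr_comm_le hX hc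
  have h3 := (sub_sq_psd hE0 hE1).conjTranspose_mul_mul_same (1 - E)
  rw [hRh] at h3
  have h4 := rtr_mul_nonneg (sq_psd hX) h3
  have h5 : (1 - E) * (E - E * E) * (1 - E) =
      (1 - E) * E * (1 - E) - E * (1 - E) * (E * (1 - E)) := by
    have h6 : E * (1 - E) * (E * (1 - E)) = (1 - E) * (E * E) * (1 - E) := by
      rw [← hcomm]
      simp only [Matrix.mul_assoc]
      rw [hcomm]
    rw [h6, Matrix.mul_sub (1 - E) E (E * E), Matrix.sub_mul ((1 - E) * E)]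
  rw [h5, Matrix.mul_sub, rtr_sub] at h4
  rw [h1]
  unfold er
  linarith

omit [DecidableEq κ] in
/-- The interpolation identity. -/
theorem FF_interp (s : ℝ) (X : Matrix ι ι ℂ) (B0 B1 : Matrix κ ι ℂ) :
    FF s (13 / 10 - 5 / 8 * s) (11 / 9) X B0 B1 =
      (1 - 5 * s) * (FF 0 (13 / 10) (11 / 9) X B0 B1 -
        1 / 10 * (er X (B0ᴴ * B0) - xx X (B0ᴴ * B0 * (1 - B0ᴴ * B0)))) +
      5 * s * FF (1 / 5) (47 / 40) (11 / 9) X B0 B1 +
      1 / 10 * (1 - 5 * s) ^ 2 * (er X (B0ᴴ * B0) - xx X (B0ᴴ * B0 * (1 - B0ᴴ * B0))) := by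
  unfold FF
  ring

end

/-- Certificate A: `s = 0`, `y = 13/10`, `m = 11/9`, with the term `- (1/10) (er - xx(E(1-E)))`. -/
def CertA : Prop :=
  ∀ (α β : Type) [Fintype α] [DecidableEq α] [Fintype β] [DecidableEq β]
    (B : Fin 2 → Matrix β α ℂ) (X : Matrix α α ℂ), ConR B → X.PosDef →
    ∀ δ : H92U.Design 2 12,
      0 ≤ H92U.Av δ (fun g => FF 0 (13 / 10) (11 / 9) X (H92U.rot g B 0) (H92U.rot g B 1) -
        1 / 10 * (er X ((H92U.rot g B 0)ᴴ * H92U.rot g B 0) -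
          xx X ((H92U.rot g B 0)ᴴ * H92U.rot g B 0 *
            (1 - (H92U.rot g B 0)ᴴ * H92U.rot g B 0))))

/-- Certificate B: `s = 1/5`, `y = 47/40`, `m = 11/9`. -/
def CertB : Prop := PlaneD (1 / 5) (47 / 40) (11 / 9)

/-- The plane inequality for every `s` in `[0, 1/5]` from the two certificates. -/
theorem planeD_of_certs (hA : CertA) (hB : CertB) {s : ℝ} (h0 : 0 ≤ s) (h1 : s ≤ 1 / 5) :
    PlaneD s (13 / 10 - 5 / 8 * s) (11 / 9) := by
  intro α β _ _ _ _ B X hBc hX δ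
  have hA' := hA α β B X hBc hX δ
  have hB' := hB α β B X hBc hX δ
  have hC : 0 ≤ H92U.Av δ (fun g => er X ((H92U.rot g B 0)ᴴ * H92U.rot g B 0) -
      xx X ((H92U.rot g B 0)ᴴ * H92U.rot g B 0 * (1 - (H92U.rot g B 0)ᴴ * H92U.rot g B 0))) :=
    H92U.Av_nonneg δ fun g => sub_nonneg.2 (xx_le_er hX.isHermitian (frE_psd B g 0)
      (frE_le B hBc g 0))
  rw [H92U.Av_congr δ (fun g => FF_interp s X (H92U.rot g B 0) (H92U.rot g B 1)), H92U.Av_add,
    H92U.Av_add, H92U.Av_mul_left_real, H92U.Av_mul_left_real, H92U.Av_mul_left_real]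
  have e1 := mul_nonneg (by linarith : (0 : ℝ) ≤ 1 - 5 * s) hA'
  have e2 := mul_nonneg (by linarith : (0 : ℝ) ≤ 5 * s) hB'
  have e3 := mul_nonneg (by positivity : (0 : ℝ) ≤ 1 / 10 * (1 - 5 * s) ^ 2) hC
  linarith

/-- **(T1) for every even `n = 2k ≥ 6` from the two certificates.** -/
theorem T1_of_certs (hA : CertA) (hB : CertB) (k : ℕ) (hk : 3 ≤ k) :
    T1Pos (2 * k) ((k : ℝ) * (k + 1)) := by
  have hk' : (3 : ℝ) ≤ (k : ℝ) := by exact_mod_cast hk
  have h5 : (5 : ℝ) ≤ ((2 * k : ℕ) : ℝ) - 1 := by push_cast; linarith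
  have h0 : (0 : ℝ) ≤ 1 / (((2 * k : ℕ) : ℝ) - 1) := by
    apply div_nonneg <;> linarith
  have h1 : 1 / (((2 * k : ℕ) : ℝ) - 1) ≤ 1 / 5 :=
    one_div_le_one_div_of_le (by norm_num) h5
  exact T1_of_planeD k (by omega) (y := 13 / 10 - 5 / 8 * (1 / (((2 * k : ℕ) : ℝ) - 1)))
    (m := 11 / 9) (by linarith) (by norm_num) (planeD_of_certs hA hB h0 h1)

end Pool.Agent.H72CA
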